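import Pool.Agent.Y142.ZS.Stm2
import Pool.Agent.Y971.ZI.Irr

set_option autoImplicit false

/-! Task SPL of project Y142-ZS: splitting from trivial Frobenius. -/

open Polynomial NumberField
open Pool.Agent.Y142.ZO Pool.Agent.Y142.ZI Pool.Agent.Y142.ZS Pool.Agent.Y971.ZI

namespace Pool.Agent.Y674.ZS

/-- the elements fixed by the Frobenius map are in the prime field -/
lemma mem_prime {κ : Type*} [Field κ] (ℓ : ℕ) [Fact ℓ.Prime] (φ : ZMod ℓ →+* κ) (y : κ)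
    (hy : y ^ ℓ = y) : ∃ a, φ a = y := by
  have hℓ : ℓ.Prime := Fact.out
  have h1 : (X ^ ℓ - X : (ZMod ℓ)[X]).Splits := by
    have := FiniteField.splits_X_pow_card_sub_X (p := ℓ) (K := ZMod ℓ)
    rw [ZMod.card] at this
    simpa using this
  have h2 : (X ^ ℓ - X : κ[X]) ≠ 0 := FiniteField.X_pow_card_sub_X_ne_zero κ hℓ.one_lt
  have h3 : y ∈ ((X ^ ℓ - X : (ZMod ℓ)[X]).map φ).roots := by
    have e : (X ^ ℓ - X : (ZMod ℓ)[X]).map φ = X ^ ℓ - X := by simp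
    rw [e, mem_roots h2]
    simp [hy]
  rw [h1.roots_map_of_ne_zero (by simpa using h2), Multiset.mem_map] at h3
  obtain ⟨a, -, ha⟩ := h3
  exact ⟨a, ha⟩

/-- **Task SPL.** -/
theorem t : S_SPL := by
  intro Q hQm hQs
  obtain ⟨D, hD0, P, hPm, hP⟩ := exists_scale Q hQm
  have hDQ : (D : ℚ) ≠ 0 := by exact_mod_cast hD0.ne'
  have hPsep : (P.map (Int.castRingHom ℚ)).Separable := by
    rw [hP, separable_def, derivative_scale Q _]
    exact isCoprime_scaleRoots _ _ _ (isUnit_iff_ne_zero.mpr hDQ) hQs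
  obtain ⟨N, hN0, a, b, hab⟩ := sep_bound P hPsep
  refine ⟨N.natAbs, ?_⟩
  intro ℓ hℓ hfact σ hfrob htr
  have hℓp : ℓ.Prime := hfact.out
  obtain ⟨𝔔, hmax, hmem, hfr⟩ := hfrob
  let _ : Field ((𝓞 QQ) ⧸ 𝔔) := Ideal.Quotient.field 𝔔
  have hchar : CharP ((𝓞 QQ) ⧸ 𝔔) ℓ := by
    rw [CharP.charP_iff_prime_eq_zero hfact.out]
    have h1 : Ideal.Quotient.mk 𝔔 (ℓ : 𝓞 QQ) = 0 := Ideal.Quotient.eq_zero_iff_mem.mpr hmem
    rwa [map_natCast] at h1
  set mk : 𝓞 QQ →+* (𝓞 QQ) ⧸ 𝔔 := Ideal.Quotient.mk 𝔔 with hmk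
  set φ : ZMod ℓ →+* (𝓞 QQ) ⧸ 𝔔 := ZMod.castHom dvd_rfl _ with hφ
  have hfrob : ∀ w : 𝓞 QQ, mk (σ • w) = (mk w) ^ ℓ := by
    intro w
    rw [← map_pow]
    exact Ideal.Quotient.eq.mpr (hfr w)
  have hcoe : ∀ (τ : GK ℚ) (w : 𝓞 QQ), ((τ • w : 𝓞 QQ) : QQ) = τ (w : QQ) := fun τ w => rfl
  have hPO : (P.map (algebraMap ℤ (𝓞 QQ))).Splits := by
    apply Polynomial.Splits.of_splits_map_of_injective (i := algebraMap (𝓞 QQ) QQ)
      (RingOfIntegers.coe_injective)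
    · exact IsAlgClosed.splits _
    · intro x hx
      rw [Polynomial.map_map] at hx
      have hx2 := Polynomial.isRoot_of_mem_roots hx
      have hint : IsIntegral ℤ x := by
        refine ⟨P, hPm, ?_⟩
        have : eval₂ ((algebraMap (𝓞 QQ) QQ).comp (algebraMap ℤ (𝓞 QQ))) x P = 0 := by
          rw [← eval_map]
          exact hx2
        rwa [← IsScalarTower.algebraMap_eq ℤ (𝓞 QQ) QQ] at this
      exact ⟨⟨x, hint⟩, rfl⟩
  have hPκ : P.map (Int.castRingHom ((𝓞 QQ) ⧸ 𝔔)) = (P.map (algebraMap ℤ (𝓞 QQ))).map mk := by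
    rw [Polynomial.map_map]
    congr 1
  have hPκs : (P.map (Int.castRingHom ((𝓞 QQ) ⧸ 𝔔))).Splits := by
    rw [hPκ]
    exact hPO.map mk
  have hPκ0 : P.map (Int.castRingHom ((𝓞 QQ) ⧸ 𝔔)) ≠ 0 := (hPm.map _).ne_zero
  have hlift : ∀ x : (𝓞 QQ) ⧸ 𝔔, eval x (P.map (Int.castRingHom ((𝓞 QQ) ⧸ 𝔔))) = 0 →
      ∃ w : 𝓞 QQ, mk w = x ∧ aeval (w : QQ) P = 0 := by
    intro x hx
    have h1 : x ∈ (P.map (Int.castRingHom ((𝓞 QQ) ⧸ 𝔔))).roots := by
      rw [Polynomial.mem_roots hPκ0]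
      exact hx
    rw [hPκ, hPO.roots_map_of_ne_zero (by rw [← hPκ]; exact hPκ0), Multiset.mem_map] at h1
    obtain ⟨w, hw, hwx⟩ := h1
    refine ⟨w, hwx, ?_⟩
    have h2 := Polynomial.isRoot_of_mem_roots hw
    rw [Polynomial.IsRoot.def, eval_map] at h2
    have h3 := congrArg (algebraMap (𝓞 QQ) QQ) h2
    rw [hom_eval₂, map_zero, ← IsScalarTower.algebraMap_eq ℤ (𝓞 QQ) QQ] at h3
    exact h3
  -- the roots are fixed
  have hfix : ∀ w : 𝓞 QQ, aeval (w : QQ) P = 0 → σ • w = w := by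
    intro w hw
    have hDQQ : (D : QQ) ≠ 0 := by exact_mod_cast hD0.ne'
    have key : aeval ((w : QQ) / D) Q = 0 := by
      have h3 := scaleRoots_eval₂_mul (p := Q) (algebraMap ℚ QQ) ((w : QQ) / D) (D : ℚ)
      rw [← hP, map_natCast, mul_div_cancel₀ _ hDQQ, eval₂_map] at h3
      have h4 : eval₂ ((algebraMap ℚ QQ).comp (Int.castRingHom ℚ)) (w : QQ) P = 0 := by
        rw [RingHom.ext_int ((algebraMap ℚ QQ).comp (Int.castRingHom ℚ)) (algebraMap ℤ QQ)]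
        exact hw
      rw [h4] at h3
      rcases mul_eq_zero.mp h3.symm with h5 | h5
      · exact absurd h5 (pow_ne_zero _ hDQQ)
      · exact h5
    have hk := htr _ key
    apply RingOfIntegers.coe_injective
    rw [map_div₀, map_natCast, div_left_inj' hDQQ] at hk
    exact hk
  -- the reduction splits over the prime field
  have hcomp : φ.comp (Int.castRingHom (ZMod ℓ)) = Int.castRingHom ((𝓞 QQ) ⧸ 𝔔) :=
    RingHom.ext_int _ _
  have hsp : (P.map (Int.castRingHom (ZMod ℓ))).Splits := by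
    apply Polynomial.Splits.of_splits_map_of_injective (i := φ) φ.injective
    · rw [Polynomial.map_map, hcomp]
      exact hPκs
    · intro x hx
      rw [Polynomial.map_map, hcomp] at hx
      have hx2 := Polynomial.isRoot_of_mem_roots hx
      obtain ⟨w, hw, hwr⟩ := hlift x hx2
      have h1 := hfrob w
      rw [hfix w hwr, hw] at h1
      obtain ⟨a, ha⟩ := mem_prime ℓ φ x h1.symm
      exact ⟨a, ha⟩
  -- separability modulo `ℓ`
  have hNℓ : ((N : ℤ) : ZMod ℓ) ≠ 0 := by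
    intro h4
    rw [ZMod.intCast_zmod_eq_zero_iff_dvd] at h4
    have h5 := Int.natAbs_dvd_natAbs.mpr h4
    rw [Int.natAbs_natCast] at h5
    have h6 := Nat.le_of_dvd (Int.natAbs_pos.mpr hN0) h5
    omega
  have hval : ∀ x : ZMod ℓ, eval x (P.map (Int.castRingHom (ZMod ℓ))) = 0 →
      eval x ((derivative P).map (Int.castRingHom (ZMod ℓ))) ≠ 0 := by
    intro x hx hx'
    have h3 := congrArg (fun q : ℤ[X] => eval x (q.map (Int.castRingHom (ZMod ℓ)))) hab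
    simp only [Polynomial.map_add, Polynomial.map_mul, eval_add,
      eval_mul, hx, hx', mul_zero, add_zero, Polynomial.map_C, eval_C] at h3
    rw [eq_intCast] at h3
    exact hNℓ h3.symm
  have hsepℓ : (P.map (Int.castRingHom (ZMod ℓ))).Separable := by
    rw [separable_def]
    have h3 : a.map (Int.castRingHom (ZMod ℓ)) * P.map (Int.castRingHom (ZMod ℓ)) +
        b.map (Int.castRingHom (ZMod ℓ)) * (derivative P).map (Int.castRingHom (ZMod ℓ)) =
        C ((N : ℤ) : ZMod ℓ) := by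
      rw [← Polynomial.map_mul, ← Polynomial.map_mul, ← Polynomial.map_add, hab, Polynomial.map_C]
      rfl
    refine ⟨C ((N : ZMod ℓ)⁻¹) * a.map (Int.castRingHom (ZMod ℓ)),
      C ((N : ZMod ℓ)⁻¹) * b.map (Int.castRingHom (ZMod ℓ)), ?_⟩
    rw [mul_assoc, mul_assoc, ← mul_add, derivative_map, h3, ← C_mul, inv_mul_cancel₀ hNℓ, C_1]
  -- Hensel
  have hhens : ∀ x : ZMod ℓ, x ∈ (P.map (Int.castRingHom (ZMod ℓ))).roots →
      ∃ z : ℤ_[ℓ], aeval z P = 0 ∧ PadicInt.toZMod z = x := by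
    intro x hx
    have hx2 : eval x (P.map (Int.castRingHom (ZMod ℓ))) = 0 := Polynomial.isRoot_of_mem_roots hx
    have hx3 := hval x hx2
    obtain ⟨c, hc⟩ : ∃ c : ℤ, c = (x.val : ℤ) := ⟨_, rfl⟩
    have hcx : (c : ZMod ℓ) = x := by
      rw [hc]
      push_cast
      exact ZMod.natCast_zmod_val x
    have hev : ∀ G : ℤ[X], aeval ((c : ℤ) : ℤ_[ℓ]) G = ((eval c G : ℤ) : ℤ_[ℓ]) := by
      intro G
      rw [aeval_def, ← eval_map]
      have := eval_intCast_map (Int.castRingHom ℤ_[ℓ]) G c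
      rw [eq_intCast] at this
      exact this
    have hevℓ : ∀ G : ℤ[X], eval x (G.map (Int.castRingHom (ZMod ℓ))) = ((eval c G : ℤ) : ZMod ℓ) := by
      intro G
      rw [← hcx]
      have := eval_intCast_map (Int.castRingHom (ZMod ℓ)) G c
      rw [eq_intCast] at this
      exact this
    rw [hevℓ, ZMod.intCast_zmod_eq_zero_iff_dvd] at hx2
    have hx4 : ¬ (ℓ : ℤ) ∣ eval c (derivative P) := by
      rw [hevℓ] at hx3
      intro h
      exact hx3 ((ZMod.intCast_zmod_eq_zero_iff_dvd _ _).2 h)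
    have n1 : ‖((eval c P : ℤ) : ℤ_[ℓ])‖ < 1 := PadicInt.norm_int_lt_one_iff_dvd _ |>.2 hx2
    have n2 : ‖((eval c (derivative P) : ℤ) : ℤ_[ℓ])‖ = 1 := by
      refine le_antisymm (PadicInt.norm_le_one _) ?_
      by_contra hcon
      exact hx4 ((PadicInt.norm_int_lt_one_iff_dvd _).1 (not_le.1 hcon))
    obtain ⟨z, hz, hz2, -⟩ := hensels_lemma (F := P) (a := ((c : ℤ) : ℤ_[ℓ])) (by
      rw [hev, hev, n2]
      simpa using n1)
    refine ⟨z, hz, ?_⟩
    rw [hev, n2] at hz2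
    have h1 : z - ((c : ℤ) : ℤ_[ℓ]) ∈ RingHom.ker (PadicInt.toZMod : ℤ_[ℓ] →+* ZMod ℓ) := by
      rw [PadicInt.ker_toZMod, IsLocalRing.mem_maximalIdeal, PadicInt.mem_nonunits]
      exact hz2
    rw [RingHom.mem_ker, map_sub, map_intCast, hcx] at h1
    exact sub_eq_zero.1 h1
  choose! z hz1 hz2 using hhens
  classical
  -- the roots in the field
  have hDℓ : (D : ℚ_[ℓ]) ≠ 0 := by exact_mod_cast hD0.ne'
  have hQ0 : Q.map (algebraMap ℚ ℚ_[ℓ]) ≠ 0 := (hQm.map _).ne_zero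
  have hroot : ∀ x ∈ (P.map (Int.castRingHom (ZMod ℓ))).roots,
      ((z x : ℚ_[ℓ]) / D) ∈ (Q.map (algebraMap ℚ ℚ_[ℓ])).roots := by
    intro x hx
    rw [mem_roots hQ0, IsRoot.def, eval_map]
    have h3 := scaleRoots_eval₂_mul (p := Q) (algebraMap ℚ ℚ_[ℓ]) ((z x : ℚ_[ℓ]) / D) (D : ℚ)
    rw [← hP, map_natCast, mul_div_cancel₀ _ hDℓ, eval₂_map] at h3
    have h4 : eval₂ ((algebraMap ℚ ℚ_[ℓ]).comp (Int.castRingHom ℚ)) (z x : ℚ_[ℓ]) P = 0 := by
      have h5 := congrArg (algebraMap ℤ_[ℓ] ℚ_[ℓ]) (hz1 x hx)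
      rw [aeval_def, hom_eval₂, map_zero] at h5
      rw [RingHom.ext_int ((algebraMap ℚ ℚ_[ℓ]).comp (Int.castRingHom ℚ))
        ((algebraMap ℤ_[ℓ] ℚ_[ℓ]).comp (algebraMap ℤ ℤ_[ℓ]))]
      exact h5
    rw [h4] at h3
    rcases mul_eq_zero.mp h3.symm with h5 | h5
    · exact absurd h5 (pow_ne_zero _ hDℓ)
    · exact h5
  rw [splits_iff_card_roots]
  refine le_antisymm (card_roots' _) ?_
  have hdeg : (Q.map (algebraMap ℚ ℚ_[ℓ])).natDegree = (P.map (Int.castRingHom (ZMod ℓ))).natDegree := by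
    rw [hQm.natDegree_map, hPm.natDegree_map, ← hPm.natDegree_map (Int.castRingHom ℚ), hP,
      natDegree_scaleRoots]
  rw [hdeg, hsp.natDegree_eq_card_roots, ← Multiset.toFinset_card_of_nodup (nodup_roots hsepℓ)]
  refine le_trans ?_ (Multiset.toFinset_card_le _)
  refine Finset.card_le_card_of_injOn (fun x => ((z x : ℚ_[ℓ]) / D)) ?_ ?_
  · intro x hx
    have hx' : x ∈ (P.map (Int.castRingHom (ZMod ℓ))).roots := by
      simpa using hx
    have := hroot x hx'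
    exact Multiset.mem_toFinset.2 this
  · intro x hx y hy hxy
    have hx' : x ∈ (P.map (Int.castRingHom (ZMod ℓ))).roots := Multiset.mem_toFinset.1 hx
    have hy' : y ∈ (P.map (Int.castRingHom (ZMod ℓ))).roots := Multiset.mem_toFinset.1 hy
    have h1 : (z x : ℚ_[ℓ]) = z y := (div_left_inj' hDℓ).1 hxy
    have h2 : z x = z y := Subtype.ext h1
    rw [← hz2 x hx', ← hz2 y hy', h2]

end Pool.Agent.Y674.ZS
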